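import Pool.Agent.Helper76.TC2.Goals
import Pool.Agent.Helper23.TC.TU

/-! Packet TC2-TV (MP_ccd65d_gt): chains for the function `u` in dimension `m + 3`. -/

set_option autoImplicit false

open Set

namespace Pool.Agent.Helper56.TC2.TV

open Pool.Agent.Helper76.TC2
open Pool.Agent.Helper76.TC (mm uu)
open Pool.Agent.Helper23.TC.TU (E fst3 uu_eq fst3_E E_fst3)

theorem E_seg (m : ℕ) (x y : Fin (m + 3) → ℝ) (t : ℝ) :
    fst3 m (x + t • (E m y (fst3 m x) - x)) = fst3 m x := by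
  funext i
  have h1 : E m y (fst3 m x) (Fin.castLE (by omega) i) = fst3 m x i := by
    have := congrFun (fst3_E m y (fst3 m x)) i
    exact this
  change x (Fin.castLE (by omega) i) + t * (E m y (fst3 m x) (Fin.castLE (by omega) i)
    - x (Fin.castLE (by omega) i)) = fst3 m x i
  rw [h1]
  change fst3 m x i + t * (fst3 m x i - fst3 m x i) = fst3 m x i
  ring

theorem E_dist (m : ℕ) (x y : Fin (m + 3) → ℝ) : ‖x - E m y (fst3 m x)‖ ≤ ‖x - y‖ := by
  rw [pi_norm_le_iff_of_nonneg (norm_nonneg _)]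
  intro i
  rw [Pi.sub_apply]
  by_cases h : i.val < 3
  · have h1 : E m y (fst3 m x) i = x i := by
      unfold E
      rw [dif_pos h]
      rfl
    rw [h1, sub_self, norm_zero]
    exact norm_nonneg _
  · have h1 : E m y (fst3 m x) i = y i := by
      unfold E
      rw [dif_neg h]
    rw [h1]
    exact norm_le_pi_norm (x - y) i

theorem E_lip (m : ℕ) (y : Fin (m + 3) → ℝ) (z w : Fin 3 → ℝ) :
    ‖E m y z - E m y w‖ ≤ ‖z - w‖ := by
  rw [pi_norm_le_iff_of_nonneg (norm_nonneg _)]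
  intro i
  rw [Pi.sub_apply]
  unfold E
  by_cases h : i.val < 3
  · rw [dif_pos h, dif_pos h]
    exact norm_le_pi_norm (z - w) ⟨i.val, h⟩
  · rw [dif_neg h, dif_neg h, sub_self, norm_zero]
    exact norm_nonneg _

theorem fst3_lip (m : ℕ) (x y : Fin (m + 3) → ℝ) : ‖fst3 m x - fst3 m y‖ ≤ ‖x - y‖ := by
  rw [pi_norm_le_iff_of_nonneg (norm_nonneg _)]
  intro i
  exact norm_le_pi_norm (x - y) (Fin.castLE (by omega) i)

theorem t (hWT : S_WT) (hWM : S_WM) (hWS : S_WS) (hTU : S_TU2) : S_TV2 := by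
  intro m x y
  obtain ⟨hadd, -, hmono, -⟩ := hWT (m + 3) (uu m)
  have hconst : ∀ t : ℝ, uu m (x + t • (E m y (fst3 m x) - x)) = uu m x := by
    intro t
    rw [uu_eq, E_seg, uu_eq]
  have hE : uu m (E m y (fst3 m x)) = uu m x := by
    rw [uu_eq, fst3_E, uu_eq]
  have s1 : W (m + 3) (uu m) ‖x - y‖ 0 x (E m y (fst3 m x)) := by
    have h := hWS (m + 3) (uu m) x (E m y (fst3 m x)) (Or.inl (by
      intro a _ b _ _
      simp only [hconst]
      exact le_refl _))
    rw [hE, sub_self, abs_zero] at h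
    exact hmono _ _ _ _ _ _ (E_dist m x y) (le_refl _) h
  have s2 : W (m + 3) (uu m) (45 * ‖x - y‖) |uu m x - uu m y| (E m y (fst3 m x)) y := by
    have h := hWM 3 (m + 3) mm (uu m) 2 (45 * ‖fst3 m x - fst3 m y‖)
      |mm (fst3 m x) - mm (fst3 m y)| (E m y) (fst3 m x) (fst3 m y) (by norm_num)
      (E_lip m y) (by
        intro z w
        rw [uu_eq, uu_eq, fst3_E, fst3_E, ← mul_sub, abs_mul, abs_of_nonneg (by norm_num : (0:ℝ) ≤ 2)])
      (hTU _ _)
    rw [E_fst3] at h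
    refine hmono _ _ _ _ _ _ ?_ ?_ h
    · have := fst3_lip m x y
      linarith
    · rw [uu_eq m x, uu_eq m y, ← mul_sub, abs_mul, abs_of_nonneg (by norm_num : (0:ℝ) ≤ 2)]
  have h := hadd _ _ _ _ _ _ _ s1 s2
  refine hmono _ _ _ _ _ _ ?_ ?_ h
  · linarith
  · linarith

end Pool.Agent.Helper56.TC2.TV
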